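import Pool.Agent.Y60.DC.Stm4

set_option autoImplicit false

/-! # Automorphisms of `SL_n(F)`: assembly (helper of the project DC) -/

namespace Pool.Agent.Y331.DCN

open Matrix
open Pool.Agent.Y60.DC

variable {F : Type} [Field F] {n : ℕ}

theorem tr_mul (A B : SLn n F) : (A * B).transpose = B.transpose * A.transpose := by
  apply Subtype.ext
  exact Matrix.transpose_mul (A : Mn n F) (B : Mn n F)

theorem tr_one : (1 : SLn n F).transpose = 1 := by
  apply Subtype.ext
  exact Matrix.transpose_one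

theorem tr_tr (A : SLn n F) : A.transpose.transpose = A := by
  apply Subtype.ext
  exact Matrix.transpose_transpose (A : Mn n F)

theorem inv_tr (A : SLn n F) : (A⁻¹).transpose⁻¹ = A.transpose := by
  rw [inv_eq_iff_mul_eq_one, ← tr_mul, mul_inv_cancel, tr_one]

/-- The transpose inverse. -/
def tinv : MulAut (SLn n F) where
  toFun A := (A⁻¹).transpose
  invFun A := (A⁻¹).transpose
  left_inv A := by
    change ((A⁻¹).transpose⁻¹).transpose = A
    rw [inv_tr, tr_tr]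
  right_inv A := by
    change ((A⁻¹).transpose⁻¹).transpose = A
    rw [inv_tr, tr_tr]
  map_mul' A B := by
    rw [_root_.mul_inv_rev, tr_mul]

theorem tinv_coe (A : SLn n F) : ((tinv A : SLn n F) : Mn n F) = ((A⁻¹ : SLn n F) : Mn n F)ᵀ := rfl

theorem tinv_tinv (A : SLn n F) : tinv (tinv A) = A := tinv.left_inv A

theorem tinv_tv (v φ : Fin n → F) (h : φ ⬝ᵥ v = 0) (A : SLn n F) (hA : (A : Mn n F) = tv v φ) :
    ((tinv A : SLn n F) : Mn n F) = tv (-φ) v := by
  have h1 : (A : Mn n F) * tv v (-φ) = 1 := by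
    rw [hA, tv, tv, mul_add, mul_one, add_mul, one_mul, Matrix.vecMulVec_mul_vecMulVec, h]
    ext i j
    simp [Matrix.vecMulVec_apply]
  have h2 : ((A⁻¹ : SLn n F) : Mn n F) * (A : Mn n F) = 1 := by
    have := congrArg (fun B : SLn n F => (B : Mn n F)) (inv_mul_cancel A)
    exact this
  have h3 : ((A⁻¹ : SLn n F) : Mn n F) = tv v (-φ) := by
    calc ((A⁻¹ : SLn n F) : Mn n F) = ((A⁻¹ : SLn n F) : Mn n F) * ((A : Mn n F) * tv v (-φ)) := by
          rw [h1, mul_one]
      _ = tv v (-φ) := by rw [← mul_assoc, h2, one_mul]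
  rw [tinv_coe, h3, tv, tv, Matrix.transpose_add, Matrix.transpose_one]
  congr 1
  ext i j
  simp [Matrix.vecMulVec_apply, mul_comm]

theorem swap_pres (f : MulAut (SLn n F)) (hf : TypeSwap f) : TypePres (f * tinv) := by
  obtain ⟨h1, h2⟩ := hf
  refine ⟨?_, ?_⟩
  · intro v hv
    obtain ⟨v', hv', H⟩ := h2 v hv
    refine ⟨v', hv', ?_⟩
    intro φ A h hA
    have h' : v ⬝ᵥ (-φ) = 0 := by
      rw [_root_.dotProduct_neg, _root_.dotProduct_comm, h, neg_zero]
    obtain ⟨φ', h3, h4⟩ := H (-φ) (tinv A) h' (tinv_tv v φ h A hA)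
    exact ⟨φ', h3, h4⟩
  · intro φ hφ
    obtain ⟨φ', hφ', H⟩ := h1 (-φ) (neg_ne_zero.mpr hφ)
    refine ⟨φ', hφ', ?_⟩
    intro v A h hA
    have h' : v ⬝ᵥ (-φ) = 0 := by
      rw [_root_.dotProduct_neg, _root_.dotProduct_comm, h, neg_zero]
    obtain ⟨v', h3, h4⟩ := H v (tinv A) h' (tinv_tv v φ h A hA)
    exact ⟨v', h3, h4⟩

theorem autn_holds : TaskSYL → TaskTYPE → TaskFIN → TaskAUTN := by
  intro hS hT hF F _ _ n hn f
  rcases hT F n hn f (hS F n hn f) (hS F n hn f⁻¹) with h | h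
  · obtain ⟨g, φ, H⟩ := hF F n hn f h
    exact ⟨g, φ, Or.inl H⟩
  · obtain ⟨g, φ, H⟩ := hF F n hn (f * tinv) (swap_pres f h)
    refine ⟨g, φ, Or.inr ?_⟩
    intro A
    have h1 := H (tinv A)
    rw [MulAut.mul_apply, tinv_tinv, tinv_coe] at h1
    exact h1

end Pool.Agent.Y331.DCN
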